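import Pool.Agent.MWKP.Stmts

set_option autoImplicit false

/-!
# Squad MWKP, row LVE (helper46): a violation in the join
-/

namespace Pool.Agent.MWKP.H46

open Pool.Agent.Helper14_MV Pool.Agent.Helper2_MV Pool.Agent.MWK Pool.Agent.MWKP

/-- induction on a chain -/
theorem chain {ρ σ : FIC} {E : List ℕ → List ℕ → Prop} {C : Prop} (hr : ∀ a, E a a)
    (ht : ∀ a b c, E a b → E b c → E a c) (h1 : ∀ a b, RR ρ a b → E a b ∨ C)
    (h2 : ∀ a b, RR σ a b → E a b ∨ C) {u v : List ℕ} (h : RR (FIC.sup ρ σ) u v) :
    E u v ∨ C := by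
  have key : ∀ w : Word, Relation.ReflTransGen (FIC.stp ρ σ) (FreeMonoid.ofList u) w →
      E u (FreeMonoid.toList w) ∨ C := by
    intro w hw
    induction hw with
    | refl => exact Or.inl (hr u)
    | @tail w w' _ hs ih =>
      rcases ih with ih | ih
      · have h3 : E (FreeMonoid.toList w) (FreeMonoid.toList w') ∨ C := by
          rcases hs with hs | hs
          · exact h1 _ _ hs
          · exact h2 _ _ hs
        rcases h3 with h3 | h3
        · exact Or.inl (ht _ _ _ ih h3)
        · exact Or.inr h3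
      · exact Or.inr ih
  exact key (FreeMonoid.ofList v) h

/-- row LVE -/
theorem lve (hA : AgtStmt) (hL : LvtStmt) (hD : DgnStmt) : LveStmt := by
  intro n ρ σ hρ hσ u v h
  refine ⟨?_, ?_, ?_⟩
  · intro hn
    obtain ⟨hr, -, ht⟩ := hA 0 0 (by omega)
    rcases chain (E := AgL 0 0) (C := Dg n ρ ∨ Dg n σ) hr ht
      (fun a b hab => by
        by_cases hc : AgL 0 0 a b
        · exact Or.inl hc
        · exact Or.inr (Or.inl ((hL n ρ hρ a b hab).1 hc)))
      (fun a b hab => by
        by_cases hc : AgL 0 0 a b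
        · exact Or.inl hc
        · exact Or.inr (Or.inr ((hL n σ hσ a b hab).1 hc))) h with h1 | h1
    · exact absurd h1 hn
    · exact h1
  · intro hn
    have step : ∀ θ : FIC, Kn n θ → ∀ a b : List ℕ, RR θ a b → (∀ x, x ∈ a ↔ x ∈ b) ∨ Dz n θ := by
      intro θ hθ a b hab
      by_cases hc : ∀ x, x ∈ a ↔ x ∈ b
      · exact Or.inl hc
      · right
        rw [not_forall] at hc
        obtain ⟨x, hx⟩ := hc
        by_cases hxa : x ∈ a
        · exact (hD n θ hθ a b hab).2 x hxa (fun hxb => hx (iff_of_true hxa hxb))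
        · have hxb : x ∈ b := by
            by_contra hxb
            exact hx (iff_of_false hxa hxb)
          exact (hD n θ hθ b a hab.symm).2 x hxb hxa
    rcases chain (E := fun a b => ∀ x, x ∈ a ↔ x ∈ b) (C := Dz n ρ ∨ Dz n σ)
      (fun a x => Iff.rfl) (fun a b c h1 h2 x => (h1 x).trans (h2 x))
      (fun a b hab => (step ρ hρ a b hab).imp id Or.inl)
      (fun a b hab => (step σ hσ a b hab).imp id Or.inr) h with h1 | h1
    · exact absurd h1 hn
    · exact h1
  · intro m
    refine ⟨?_, ?_⟩
    · intro j hj hn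
      obtain ⟨hr, -, ht⟩ := hA m (j + 1) (by omega)
      rcases chain (E := AgL m (j + 1)) (C := Lv n m j ρ ∨ Lv n m j σ) hr ht
        (fun a b hab => by
          by_cases hc : AgL m (j + 1) a b
          · exact Or.inl hc
          · exact Or.inr (Or.inl (((hL n ρ hρ a b hab).2 m).1 j hj hc)))
        (fun a b hab => by
          by_cases hc : AgL m (j + 1) a b
          · exact Or.inl hc
          · exact Or.inr (Or.inr (((hL n σ hσ a b hab).2 m).1 j hj hc))) h with h1 | h1
      · exact absurd h1 hn
      · exact h1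
    · intro hn
      obtain ⟨hr, -, ht⟩ := hA (m + 1) 0 (by omega)
      rcases chain (E := AgL (m + 1) 0) (C := Lv n m (m + 2) ρ ∨ Lv n m (m + 2) σ) hr ht
        (fun a b hab => by
          by_cases hc : AgL (m + 1) 0 a b
          · exact Or.inl hc
          · exact Or.inr (Or.inl (((hL n ρ hρ a b hab).2 m).2 hc)))
        (fun a b hab => by
          by_cases hc : AgL (m + 1) 0 a b
          · exact Or.inl hc
          · exact Or.inr (Or.inr (((hL n σ hσ a b hab).2 m).2 hc))) h with h1 | h1
      · exact absurd h1 hn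
      · exact h1

end Pool.Agent.MWKP.H46
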